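import Mathlib
import Pool.Agent.H704R2.HermanDens

/-!
# Zero is a Lebesgue density point of the set of rotation numbers of Herman rings of
`(x, y) ↦ (y, x + y ^ 2)` (MP_3dce9d_an, Q2, which implies Q1)
-/

set_option autoImplicit false

open MeasureTheory Set Filter Topology

namespace Pool.Agent.Results.MP_3dce9d_an.DensityPoint

/-- The quadratic automorphism `(x, y) ↦ (y, x + y ^ 2)` of `ℂ × ℂ`. -/
def henon (p : ℂ × ℂ) : ℂ × ℂ := (p.2, p.1 + p.2 ^ 2)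

/-- `henon` has a Herman ring with (irrational) rotation number `θ`. A holomorphic map on the
annulus `{z ∈ ℂ/ℤ : |Im z| < h}` is given as a one-periodic map on the strip `{|Im z| < h}` that is
complex differentiable there. -/
def HasHermanRing (θ : ℝ) : Prop :=
  Irrational θ ∧ ∃ h : ℝ, 0 < h ∧ ∃ (φ : ℂ → ℂ × ℂ) (n : ℕ), 2 ≤ n ∧
    DifferentiableOn ℂ φ {z : ℂ | |z.im| < h} ∧
    (∀ z : ℂ, |z.im| < h → φ (z + 1) = φ z) ∧
    (∃ z z' : ℂ, |z.im| < h ∧ |z'.im| < h ∧ φ z ≠ φ z') ∧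
    ∀ z : ℂ, |z.im| < h → henon^[n] (φ z) = φ (z + θ)

/-- The set `Θ ⊆ (ℝ \ ℚ) / ℤ ⊆ ℝ / ℤ` of the rotation numbers of Herman rings of `henon`. -/
def Theta : Set (AddCircle (1 : ℝ)) :=
  {x | ∃ θ : ℝ, (θ : AddCircle (1 : ℝ)) = x ∧ HasHermanRing θ}

/-- The arc `(-r, r)` of `ℝ / ℤ`. -/
def arc (r : ℝ) : Set (AddCircle (1 : ℝ)) := (fun t : ℝ => (t : AddCircle (1 : ℝ))) '' Ioo (-r) r

lemma theta_eq : Theta = Pool.Agent.H704R2.HermanMeas.Theta := by
  ext x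
  constructor
  · rintro ⟨θ, h1, h2, h3⟩
    exact ⟨θ, h1, h2, h3⟩
  · rintro ⟨θ, h1, h2, h3⟩
    exact ⟨θ, h1, h2, h3⟩

/-- The set `Θ` is measurable, and `0` is a Lebesgue density point of it: the Haar probability
measure of `Θ ∩ (-r, r)` divided by `2 r` tends to `1` as `r → 0+`. -/
theorem result : MeasurableSet Theta ∧
    Tendsto (fun r : ℝ => volume (Theta ∩ arc r) / ENNReal.ofReal (2 * r)) (𝓝[>] 0) (𝓝 1) := by
  rw [theta_eq]
  exact ⟨Pool.Agent.H704R2.HermanMeas.measurableSet_Theta, Pool.Agent.H704R2.HermanMeas.density⟩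

end Pool.Agent.Results.MP_3dce9d_an.DensityPoint
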